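import Pool.Agent.Lib.MP_8995c5_an.Reduce
import Pool.Agent.Lib.MP_8995c5_an.IBPMain

/-!
# MP_8995c5_an: continuity under exponentially integrable inner distortion

Own statement, literal to the problem file: Euclidean space, weak derivatives by integration by parts on the open set,
the inner distortion as a function of the matrix. Only the values of the functions on the open set matter.
-/

set_option autoImplicit false

open MeasureTheory

namespace Pool.Agent.Results.MP_8995c5_an.Continuity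

/-- Euclidean space `R^n`. -/
abbrev E (n : ℕ) : Type := EuclideanSpace ℝ (Fin n)

/-- `Df` is a weak derivative of `f` on `Ω`, with `f` and `Df` locally integrable on `Ω` (so `f ∈ W^{1,1}_loc(Ω, R^n)`): the
components of `f` and the entries of `Df` are locally integrable on `Ω` and the formula of integration by parts holds with
every smooth test function `φ` whose support is compact and contained in `Ω`. -/
structure IsWeakDerivative {n : ℕ} (Ω : Set (E n)) (f : E n → E n) (Df : E n → Matrix (Fin n) (Fin n) ℝ) : Prop where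
  locallyIntegrable : ∀ i, LocallyIntegrableOn (fun x => f x i) Ω volume
  locallyIntegrable_deriv : ∀ i j, LocallyIntegrableOn (fun x => Df x i j) Ω volume
  integral_eq : ∀ φ : E n → ℝ, ContDiff ℝ (⊤ : ℕ∞) φ → HasCompactSupport φ → tsupport φ ⊆ Ω →
    ∀ i j, ∫ x in Ω, f x i * fderiv ℝ φ x (EuclideanSpace.single j (1 : ℝ)) = - ∫ x in Ω, Df x i j * φ x

/-- The operator norm of a square matrix, for the Euclidean norm. -/
noncomputable def opNorm {n : ℕ} (A : Matrix (Fin n) (Fin n) ℝ) : ℝ :=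
  ‖Matrix.toEuclideanCLM (𝕜 := ℝ) A‖

/-- The inner distortion of a matrix: `|adj A|^n (det A)^(1-n)` if `det A > 0`, and `1` otherwise. -/
noncomputable def innerDistortion {n : ℕ} (A : Matrix (Fin n) (Fin n) ℝ) : ℝ :=
  if 0 < A.det then opNorm A.adjugate ^ n * A.det ^ (1 - (n : ℤ)) else 1

/-- `f` is a mapping of finite distortion on `Ω` and `Df` is its weak derivative: `f ∈ W^{1,1}_loc`, the Jacobian
`det Df` is locally integrable on `Ω`, nonnegative almost everywhere, and `|Df(x)| = 0` for almost every `x` with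
`det Df(x) = 0`. -/
structure FiniteDistortion {n : ℕ} (Ω : Set (E n)) (f : E n → E n) (Df : E n → Matrix (Fin n) (Fin n) ℝ) : Prop
    extends IsWeakDerivative Ω f Df where
  locallyIntegrable_det : LocallyIntegrableOn (fun x => (Df x).det) Ω volume
  det_nonneg : ∀ᵐ x ∂(volume.restrict Ω), 0 ≤ (Df x).det
  eq_zero : ∀ᵐ x ∂(volume.restrict Ω), (Df x).det = 0 → opNorm (Df x) = 0

/-- The theorem in the coordinates of the library. -/
def Coord : Prop :=
  ∀ (n : ℕ), 2 ≤ n → ∀ (Ω : Set (Fin n → ℝ)), IsOpen Ω →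
  ∀ (f : (Fin n → ℝ) → (Fin n → ℝ)) (Df : (Fin n → ℝ) → Matrix (Fin n) (Fin n) ℝ),
    (∀ i, MeasureTheory.LocallyIntegrableOn (fun x => f x i) Ω MeasureTheory.volume) →
    (∀ i j, MeasureTheory.LocallyIntegrableOn (fun x => Df x i j) Ω MeasureTheory.volume) →
    (∀ φ : (Fin n → ℝ) → ℝ, ContDiff ℝ (⊤ : ℕ∞) φ → HasCompactSupport φ → tsupport φ ⊆ Ω →
      ∀ i j, ∫ x, f x i * fderiv ℝ φ x (Pi.single j (1 : ℝ) : Fin n → ℝ)
        = - ∫ x, Df x i j * φ x) →
    MeasureTheory.LocallyIntegrableOn (fun x => (Df x).det) Ω MeasureTheory.volume →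
    (∀ᵐ x ∂(MeasureTheory.volume.restrict Ω),
        0 ≤ (Df x).det ∧ ((Df x).det = 0 → Df x = 0)) →
    (∃ l : ℝ, 0 < l ∧ MeasureTheory.LocallyIntegrableOn
        (fun x => Real.exp (l * (if (Df x).det = 0 then (1 : ℝ) else
          ‖Matrix.toEuclideanCLM (𝕜 := ℝ) (Df x).adjugate‖ ^ n / (Df x).det ^ (n - 1))
            ^ ((1 : ℝ) / ((n : ℝ) - 1))))
        Ω MeasureTheory.volume) →
    ∃ g : (Fin n → ℝ) → (Fin n → ℝ), ContinuousOn g Ω ∧ f =ᵐ[MeasureTheory.volume.restrict Ω] g

/-- The identity map from coordinates to Euclidean space. -/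
def e {n : ℕ} (x : Fin n → ℝ) : E n := WithLp.toLp 2 x

lemma e_mp {n : ℕ} : MeasurePreserving (e : (Fin n → ℝ) → E n) volume volume :=
  PiLp.volume_preserving_toLp (Fin n)

lemma e_me {n : ℕ} : MeasurableEmbedding (e : (Fin n → ℝ) → E n) :=
  (MeasurableEquiv.toLp 2 (Fin n → ℝ)).measurableEmbedding

lemma e_cont {n : ℕ} : Continuous (e : (Fin n → ℝ) → E n) := PiLp.continuous_toLp 2 _

lemma loc {n : ℕ} {Ω : Set (E n)} {h : E n → ℝ} (hh : LocallyIntegrableOn h Ω volume) :
    LocallyIntegrableOn (fun x => h (e x)) (e ⁻¹' Ω) volume := by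
  intro x hx
  obtain ⟨s, hs, hi⟩ := hh (e x) hx
  refine ⟨e ⁻¹' s, ?_, ?_⟩
  · have : Filter.Tendsto (e : (Fin n → ℝ) → E n) (nhdsWithin x (e ⁻¹' Ω)) (nhdsWithin (e x) Ω) :=
      tendsto_nhdsWithin_iff.2 ⟨(e_cont.tendsto x).mono_left nhdsWithin_le_nhds,
        Filter.eventually_of_mem self_mem_nhdsWithin fun y hy => hy⟩
    exact this hs
  · exact (e_mp.integrableOn_comp_preimage e_me).2 hi

lemma ae_res {n : ℕ} {Ω : Set (E n)} {p : E n → Prop} (h : ∀ᵐ x ∂(volume.restrict Ω), p x) :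
    ∀ᵐ x ∂(volume.restrict (e ⁻¹' Ω : Set (Fin n → ℝ))), p (e x) := by
  have := (e_mp.restrict_preimage_emb (e_me (n := n)) Ω)
  exact this.quasiMeasurePreserving.ae h

theorem main (H : Coord) (n : ℕ) (hn : 2 ≤ n) (Ω : Set (E n)) (hΩ : IsOpen Ω) (f : E n → E n)
    (Df : E n → Matrix (Fin n) (Fin n) ℝ) (hf : FiniteDistortion Ω f Df) (l : ℝ) (hl : 0 < l)
    (hexp : LocallyIntegrableOn
      (fun x => Real.exp (l * innerDistortion (Df x) ^ (1 / ((n : ℝ) - 1)))) Ω volume) :
    ∃ g : E n → E n, ContinuousOn g Ω ∧ f =ᵐ[volume.restrict Ω] g := by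
  have hE : IsOpen (e ⁻¹' Ω : Set (Fin n → ℝ)) := hΩ.preimage e_cont
  have hop : ∀ A : Matrix (Fin n) (Fin n) ℝ, opNorm A = 0 → A = 0 := by
    intro A hA
    unfold opNorm at hA
    rw [norm_eq_zero] at hA
    simpa using hA
  have key := H n hn (e ⁻¹' Ω) hE (fun x => (f (e x)).ofLp) (fun x => Df (e x))
    (fun i => loc (hf.locallyIntegrable i)) (fun i j => loc (hf.locallyIntegrable_deriv i j)) ?_
    (loc hf.locallyIntegrable_det) ?_ ⟨l, hl, ?_⟩
  · obtain ⟨g, hg, hfg⟩ := key
    refine ⟨fun y => e (g y.ofLp), ?_, ?_⟩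
    · refine e_cont.comp_continuousOn (hg.comp (PiLp.continuous_ofLp 2 _).continuousOn ?_)
      intro y hy
      exact hy
    · have hmp : MeasurePreserving (WithLp.ofLp : E n → (Fin n → ℝ)) volume volume :=
        PiLp.volume_preserving_ofLp (Fin n)
      have hme : MeasurableEmbedding (WithLp.ofLp : E n → (Fin n → ℝ)) :=
        (MeasurableEquiv.toLp 2 (Fin n → ℝ)).symm.measurableEmbedding
      have h1 := (hmp.restrict_preimage_emb hme (e ⁻¹' Ω)).quasiMeasurePreserving.ae hfg
      have h2 : (WithLp.ofLp ⁻¹' (e ⁻¹' Ω) : Set (E n)) = Ω := rfl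
      rw [h2] at h1
      filter_upwards [h1] with y hy
      have hy' : (f y).ofLp = g y.ofLp := hy
      show f y = e (g y.ofLp)
      rw [← hy']; rfl
  · intro φ hφ hc hs i j
    have hc' : Continuous (WithLp.ofLp : E n → (Fin n → ℝ)) := PiLp.continuous_ofLp 2 _
    let L : E n ≃L[ℝ] (Fin n → ℝ) := PiLp.continuousLinearEquiv 2 ℝ (fun _ : Fin n => ℝ)
    have hL : ∀ y : E n, L y = y.ofLp := fun y => rfl
    have hts : tsupport (fun y : E n => φ y.ofLp) ⊆ Ω := by
      have h1 : tsupport (fun y : E n => φ y.ofLp) ⊆ L ⁻¹' (tsupport φ) :=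
        tsupport_comp_subset_preimage φ L.continuous
      intro y hy
      exact hs (h1 hy)
    have hcs : HasCompactSupport (fun y : E n => φ y.ofLp) :=
      hc.comp_homeomorph L.toHomeomorph
    have hcd : ContDiff ℝ (⊤ : ℕ∞) (fun y : E n => φ y.ofLp) := hφ.comp L.contDiff
    have h0 := hf.integral_eq (fun y => φ y.ofLp) hcd hcs hts i j
    have hfd : ∀ x : Fin n → ℝ, fderiv ℝ (fun y : E n => φ y.ofLp) (e x) (EuclideanSpace.single j (1 : ℝ))
        = fderiv ℝ φ x (Pi.single j (1 : ℝ) : Fin n → ℝ) := by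
      intro x
      have h1 : fderiv ℝ (φ ∘ L) (e x) = (fderiv ℝ φ (L (e x))).comp (L : E n →L[ℝ] (Fin n → ℝ)) := by
        rw [fderiv_comp]
        · rw [ContinuousLinearEquiv.fderiv]
        · exact (hφ.differentiable (by simp)).differentiableAt
        · exact L.differentiableAt
      have h2 : (fun y : E n => φ y.ofLp) = φ ∘ L := rfl
      rw [h2, h1]
      rfl
    have hz : ∀ x, x ∉ (e ⁻¹' Ω : Set (Fin n → ℝ)) → φ x = 0 ∧
        fderiv ℝ φ x (Pi.single j (1 : ℝ) : Fin n → ℝ) = 0 := by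
      intro x hx
      have hx' : x ∉ tsupport φ := fun h => hx (hs h)
      refine ⟨image_eq_zero_of_notMem_tsupport hx', ?_⟩
      have : fderiv ℝ φ x = 0 := by
        by_contra hne
        exact hx' (support_fderiv_subset ℝ (Function.mem_support.2 hne))
      rw [this]; rfl
    have hA : ∫ x, (f (e x)).ofLp i * fderiv ℝ φ x (Pi.single j (1 : ℝ) : Fin n → ℝ) =
        ∫ x in Ω, f x i * fderiv ℝ (fun y : E n => φ y.ofLp) x (EuclideanSpace.single j (1 : ℝ)) := by
      rw [← e_mp.setIntegral_preimage_emb e_me, ← setIntegral_eq_integral_of_forall_compl_eq_zero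
        (s := (e ⁻¹' Ω : Set (Fin n → ℝ)))]
      · simp only [hfd]
      · intro x hx
        rw [(hz x hx).2, mul_zero]
    have hB : ∫ x, Df (e x) i j * φ x = ∫ x in Ω, Df x i j * φ x.ofLp := by
      rw [← e_mp.setIntegral_preimage_emb e_me, ← setIntegral_eq_integral_of_forall_compl_eq_zero
        (s := (e ⁻¹' Ω : Set (Fin n → ℝ)))]
      · rfl
      · intro x hx
        rw [(hz x hx).1, mul_zero]
    rw [hA, hB]
    exact h0
  · filter_upwards [ae_res hf.det_nonneg, ae_res hf.eq_zero] with x h1 h2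
    exact ⟨h1, fun h => hop _ (h2 h)⟩
  · have hae : ∀ᵐ x ∂(volume.restrict (e ⁻¹' Ω : Set (Fin n → ℝ))),
        (if (Df (e x)).det = 0 then (1 : ℝ) else
          ‖Matrix.toEuclideanCLM (𝕜 := ℝ) (Df (e x)).adjugate‖ ^ n / (Df (e x)).det ^ (n - 1))
          = innerDistortion (Df (e x)) := by
      filter_upwards [ae_res hf.det_nonneg] with x h1
      unfold innerDistortion opNorm
      by_cases h : (Df (e x)).det = 0
      · rw [if_pos h, if_neg (by rw [h]; exact lt_irrefl 0)]
      · rw [if_neg h, if_pos (lt_of_le_of_ne h1 (Ne.symm h)), div_eq_mul_inv]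
        congr 1
        rw [← zpow_natCast, ← zpow_neg]
        congr 1
        push_cast [Nat.cast_sub (by omega : 1 ≤ n)]
        ring
    have h3 := loc hexp
    intro x hx
    obtain ⟨s, hs, hi⟩ := h3 x hx
    refine ⟨s ∩ (e ⁻¹' Ω), Filter.inter_mem hs self_mem_nhdsWithin, ?_⟩
    have hi2 := hi.mono_set (Set.inter_subset_left (t := (e ⁻¹' Ω : Set (Fin n → ℝ))))
    refine hi2.congr ?_
    have hae2 := ae_mono (Measure.restrict_mono (Set.inter_subset_right (s := s) (t := (e ⁻¹' Ω : Set (Fin n → ℝ))))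
      (le_refl volume)) hae
    filter_upwards [hae2] with y hy
    rw [hy]

/-- **Continuity under exponentially integrable inner distortion.** For every `n ≥ 2`, every open `Ω ⊆ R^n`, every mapping
`f` of finite distortion on `Ω` with weak derivative `Df` and every `l > 0`: if `exp (l K_I^(1/(n-1)))` is locally integrable
on `Ω`, then `f` has a continuous representative. -/
theorem result (n : ℕ) (hn : 2 ≤ n) (Ω : Set (E n)) (hΩ : IsOpen Ω) (f : E n → E n)
    (Df : E n → Matrix (Fin n) (Fin n) ℝ) (hf : FiniteDistortion Ω f Df) (l : ℝ) (hl : 0 < l)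
    (hexp : LocallyIntegrableOn
      (fun x => Real.exp (l * innerDistortion (Df x) ^ (1 / ((n : ℝ) - 1)))) Ω volume) :
    ∃ g : E n → E n, ContinuousOn g Ω ∧ f =ᵐ[volume.restrict Ω] g :=
  main (Pool.Agent.MP8995.main_of_ibp fun _ hn _ _ _ h hp hdet hlog =>
    Pool.Agent.MP8995.ibp hn h hp hdet hlog) n hn Ω hΩ f Df hf l hl hexp

end Pool.Agent.Results.MP_8995c5_an.Continuity
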